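import Pool.Agent.Lib.HS.Blue
import Pool.Agent.Lib.HS32.MAll

/-! Backward resolvent measures along a sequence of Kähler metrics, and the telescoping sum. -/

open scoped Classical Topology ContDiff ComplexOrder Matrix
open Set MeasureTheory Complex Metric Filter

noncomputable section

namespace Pool.Agent.Lib.RB27

open Pool.Agent.Lib.SV (E)
open Pool.Agent.Lib.HS32
open Pool.Agent.Lib.HS hiding Mat

variable {n : ℕ} {M : Mf n}

theorem sm_cont {f : M.X → ℝ} (hf : M.Sm f) : Continuous f := ((mTR n M).2.2.2.1 ℝ f).1 hf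

theorem sm_int [M.Cpt] {G : M.Fam (Mat n)} (hG : M.Met G) {f : M.X → ℝ} (hf : M.Sm f) :
    Integrable f (M.mu G) := (mMU n M G hG).2.2.2.2.1 ℝ f (sm_cont hf)

theorem sm_mul {f g : M.X → ℝ} (hf : M.Sm f) (hg : M.Sm g) : M.Sm fun x => f x * g x :=
  fun e he z hz => (hf e he z hz).mul (hg e he z hz)

theorem sm_sub {f g : M.X → ℝ} (hf : M.Sm f) (hg : M.Sm g) : M.Sm fun x => f x - g x :=
  fun e he z hz => (hf e he z hz).sub (hg e he z hz)

theorem sm_add {f g : M.X → ℝ} (hf : M.Sm f) (hg : M.Sm g) : M.Sm fun x => f x + g x :=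
  fun e he z hz => (hf e he z hz).add (hg e he z hz)

theorem sm_const (c : ℝ) : M.Sm fun _ => c := fun _ _ _ _ => contDiffAt_const

theorem sm_lap {G : M.Fam (Mat n)} (hG : M.Met G) {f : M.X → ℝ} (hf : M.Sm f) :
    M.Sm (M.lap G f) := ((mLAP n M f f hf hf).2.2 G hG).1

theorem sm_dq {G T : M.Fam (Mat n)} (hG : M.Met G) (hT : M.Ten T) : M.Sm (M.dq G T) :=
  ((mINV n M G hG).1 T hT).2.2.2.1

/-- The resolvent of a positive function. -/
theorem res_step (hR : St_RESV) [M.Cpt] {G : M.Fam (Mat n)} {β : M.X → ℝ} (hn : 0 < n)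
    (hG : M.Kae G) (hβ : M.Sm β) (β0 : ∀ x, 0 < β x) :
    ∃ ρ, M.Sm ρ ∧ (∀ x, 0 < ρ x) ∧ ∀ x, ρ x - M.lap G ρ x = β x := by
  obtain ⟨ρ, hρ, he⟩ := hR n M G β 1 hn hG hβ one_pos
  refine ⟨ρ, hρ, fun x => ?_, fun x => by simpa using he x⟩
  obtain ⟨x₀, -, hx₀⟩ := isCompact_univ.exists_isMinOn univ_nonempty (sm_cont hρ).continuousOn
  have hm : IsLocalMin ρ x₀ := hx₀.isLocalMin univ_mem
  have h1 := ((((mLAP n M ρ ρ hρ hρ).2.2 G hG.toMet).2.2.1 x₀ 0).2.2.2.2.2.2.2.2.2 hm).1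
  have h2 : ρ x₀ ≤ ρ x := hx₀ (mem_univ x)
  have := he x₀
  have := β0 x₀
  linarith

/-- The resolvent is self-adjoint. -/
theorem res_adj [M.Cpt] {G : M.Fam (Mat n)} {β ρ f : M.X → ℝ} (hG : M.Kae G) (hρ : M.Sm ρ)
    (he : ∀ x, ρ x - M.lap G ρ x = β x) (hf : M.Sm f) :
    ∫ x, f x * β x ∂M.mu G = ∫ x, ρ x * (f x - M.lap G f x) ∂M.mu G := by
  have hm := hG.toMet
  have h1 := ((mGRN n M).2 G f ρ hG hf hρ).2.2
  simp only [← he, mul_sub]
  rw [integral_sub (sm_int hm (sm_mul hf hρ)) (sm_int hm (sm_mul hf (sm_lap hm hρ))),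
    integral_sub (sm_int hm (sm_mul hρ hf)) (sm_int hm (sm_mul hρ (sm_lap hm hf))), h1]
  simp only [mul_comm]

theorem res_int [M.Cpt] {G : M.Fam (Mat n)} {β ρ : M.X → ℝ} (hG : M.Kae G) (hρ : M.Sm ρ)
    (he : ∀ x, ρ x - M.lap G ρ x = β x) : ∫ x, ρ x ∂M.mu G = ∫ x, β x ∂M.mu G := by
  have hm := hG.toMet
  have h1 := ((mGRN n M).2 G ρ ρ hG hρ hρ).1
  simp only [← he]
  rw [integral_sub (sm_int hm hρ) (sm_int hm (sm_lap hm hρ)), h1, sub_zero]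

/-- Change of the reference measure. -/
theorem int_dq [M.Cpt] {G H : M.Fam (Mat n)} (hG : M.Met G) (hH : M.Met H) (f : M.X → ℝ) :
    ∫ x, f x ∂M.mu G = ∫ x, M.dq H G x * f x ∂M.mu H :=
  ((mMU n M H hH).2.2.2.2.2.2 G hG).2.1 f

/-- The backward resolvent densities. -/
theorem back (hR : St_RESV) [M.Cpt] {g : ℕ → M.Fam (Mat n)} (hn : 0 < n) (hg : ∀ j, M.Kae (g j))
    (J : ℕ) : ∀ β : M.X → ℝ, M.Sm β → (∀ x, 0 < β x) → ∫ x, β x ∂M.mu (g J) = 1 →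
    ∃ b ρ : ℕ → M.X → ℝ, b J = β ∧ ∀ j < J, M.Sm (ρ j) ∧ (∀ x, 0 < ρ j x) ∧
      (∀ x, ρ j x - M.lap (g (j + 1)) (ρ j) x = b (j + 1) x) ∧
      (∀ x, b j x = M.dq (g j) (g (j + 1)) x * ρ j x) ∧ ∫ x, ρ j x ∂M.mu (g (j + 1)) = 1 := by
  induction J with
  | zero => exact fun β _ _ _ => ⟨fun _ => β, fun _ => β, rfl, fun j hj => absurd hj (by omega)⟩
  | succ J ih =>
    intro β hβ β0 β1
    obtain ⟨r, hr, r0, re⟩ := res_step hR hn (hg (J + 1)) hβ β0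
    have r1 : ∫ x, r x ∂M.mu (g (J + 1)) = 1 := (res_int (hg _) hr re).trans β1
    have d0 := ((mINV n M _ (hg J).toMet).2.2.2.2.2.2.2 _ (hg (J + 1)).toMet).1
    obtain ⟨b, ρ, hb, hρ⟩ := ih (fun x => M.dq (g J) (g (J + 1)) x * r x)
      (sm_mul (sm_dq (hg J).toMet (hg (J + 1)).toTen) hr) (fun x => mul_pos (d0 x) (r0 x))
      ((int_dq (hg _).toMet (hg _).toMet r).symm.trans r1)
    refine ⟨Function.update b (J + 1) β, Function.update ρ J r, by simp, fun j hj => ?_⟩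
    rcases (Nat.lt_succ_iff.1 hj).eq_or_lt with rfl | hj
    · rw [Function.update_self, Function.update_self, Function.update_of_ne (by omega), hb]
      exact ⟨hr, r0, re, fun _ => rfl, r1⟩
    · rw [Function.update_of_ne (by omega), Function.update_of_ne (by omega),
        Function.update_of_ne (by omega)]
      exact hρ j hj

/-- One step of the telescoping sum. -/
theorem tel_step [M.Cpt] {G G' : M.Fam (Mat n)} {S S' Y β β' ρ : M.X → ℝ} (hG : M.Kae G)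
    (hG' : M.Kae G') (hS : M.Sm S) (hS' : M.Sm S') (hY : M.Sm Y) (hρ : M.Sm ρ)
    (ρ0 : ∀ x, 0 ≤ ρ x) (he : ∀ x, ρ x - M.lap G' ρ x = β' x)
    (hb : ∀ x, β x = M.dq G G' x * ρ x) (hi : ∀ x, Y x + S' x - S x ≤ M.lap G' S' x) :
    ∫ x, S' x * β' x ∂M.mu G' + ∫ x, ρ x * Y x ∂M.mu G' ≤ ∫ x, S x * β x ∂M.mu G := by
  have hm := hG'.toMet
  have e : ∫ x, S x * β x ∂M.mu G = ∫ x, ρ x * S x ∂M.mu G' := by
    rw [int_dq hm hG.toMet]
    exact integral_congr_ae (Eventually.of_forall fun x => by simp only [hb]; ring)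
  have i1 := sm_int hm (sm_mul hρ (sm_sub hS' (sm_lap hm hS')))
  have i2 := sm_int hm (sm_mul hρ hY)
  rw [e, res_adj hG' hρ he hS', ← integral_add i1 i2]
  refine integral_mono (i1.add i2) (sm_int hm (sm_mul hρ hS)) fun x => ?_
  have := mul_le_mul_of_nonneg_left (hi x) (ρ0 x)
  simp only []
  linarith

/-- The telescoping sum. -/
theorem tel_sum [M.Cpt] {g : ℕ → M.Fam (Mat n)} {S Y b ρ : ℕ → M.X → ℝ} {J : ℕ}
    (hg : ∀ j, M.Kae (g j)) (hS : ∀ j, M.Sm (S j)) (hY : ∀ j, M.Sm (Y j))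
    (hi : ∀ j x, Y (j + 1) x + S (j + 1) x - S j x ≤ M.lap (g (j + 1)) (S (j + 1)) x)
    (hρ : ∀ j < J, M.Sm (ρ j) ∧ (∀ x, 0 < ρ j x) ∧
      (∀ x, ρ j x - M.lap (g (j + 1)) (ρ j) x = b (j + 1) x) ∧
      (∀ x, b j x = M.dq (g j) (g (j + 1)) x * ρ j x) ∧ ∫ x, ρ j x ∂M.mu (g (j + 1)) = 1) :
    ∀ i ≤ J, ∫ x, S i x * b i x ∂M.mu (g i) +
      ∑ j ∈ Finset.range i, ∫ x, ρ j x * Y (j + 1) x ∂M.mu (g (j + 1)) ≤
      ∫ x, S 0 x * b 0 x ∂M.mu (g 0) := by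
  intro i
  induction i with
  | zero => simp
  | succ i ih =>
    intro h
    obtain ⟨a1, a2, a3, a4, -⟩ := hρ i h
    have := tel_step (hg i) (hg (i + 1)) (hS i) (hS (i + 1)) (hY (i + 1)) a1 (fun x => (a2 x).le)
      a3 a4 (hi i)
    have := ih (Nat.le_of_succ_le h)
    rw [Finset.sum_range_succ]
    linarith

/-- The maximum principle along the sequence. -/
theorem max_seq [M.Cpt] {g : ℕ → M.Fam (Mat n)} {S : ℕ → M.X → ℝ} {c : ℝ}
    (hg : ∀ j, M.Met (g j)) (hS : ∀ j, M.Sm (S j))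
    (hi : ∀ j x, S (j + 1) x - S j x ≤ M.lap (g (j + 1)) (S (j + 1)) x) (h0 : ∀ x, S 0 x ≤ c) :
    ∀ j x, S j x ≤ c := by
  intro j
  induction j with
  | zero => exact h0
  | succ j ih =>
    intro x
    have hs := hS (j + 1)
    obtain ⟨x₀, -, hx₀⟩ := isCompact_univ.exists_isMaxOn univ_nonempty (sm_cont hs).continuousOn
    have hm : IsLocalMax (S (j + 1)) x₀ := hx₀.isLocalMax univ_mem
    have h1 := ((((mLAP n M _ _ hs hs).2.2 _ (hg (j + 1))).2.2.1 x₀ 0).2.2.2.2.2.2.2.2.1 hm).1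
    have h2 : S (j + 1) x ≤ S (j + 1) x₀ := hx₀ (mem_univ x)
    have := hi j x₀
    have := ih x₀
    linarith

end Pool.Agent.Lib.RB27
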