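import Pool.Agent.Lib.HS.B_POP
import Pool.Agent.Lib.HS32.MAll

/-! A bound for the norm of exponent `1 + 1 / n` of a density, by a Monge-Ampère equation. -/

open scoped Classical Topology ContDiff ComplexOrder Matrix
open Set MeasureTheory Complex Metric Filter

noncomputable section

namespace Pool.Agent.Lib.RB27

open Pool.Agent.Lib.SV (E)
open Pool.Agent.Lib.HS32
open Pool.Agent.Lib.HS hiding Mat

theorem tan_tr {n : ℕ} {G A : Mat n} (hG : G.PosDef) (hA : A.PosDef) (y : ℝ) :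
    Real.exp y * (n + Real.log (A.det.re / G.det.re) - n * y) ≤ (G⁻¹ * A).trace.re := by
  obtain ⟨lam, h⟩ := HS76.eig hG hA.1
  have hp := h.pos hA
  have h0 := HS76.det_re_pos hG
  rw [h.det_eq, h.tr_re, Complex.re_mul_ofReal, mul_div_cancel_left₀ _ h0.ne',
    Real.log_prod fun i _ => (hp i).ne']
  have e : (n : ℝ) + ∑ i, Real.log (lam i) - n * y = ∑ i : Fin n, (1 + Real.log (lam i) - y) := by
    simp [Finset.sum_add_distrib, Finset.sum_sub_distrib]
  rw [e, Finset.mul_sum]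
  refine Finset.sum_le_sum fun i _ => ?_
  have h1 := Real.add_one_le_exp (Real.log (lam i) - y)
  have h2 := mul_le_mul_of_nonneg_left h1 (Real.exp_pos y).le
  rw [← Real.exp_add, add_sub_cancel, Real.exp_log (hp i)] at h2
  linarith

theorem ma_step (hA : St_AUBIN) {n : ℕ} (M : Mf n) [M.Cpt] {G : M.Fam (Mat n)} {r : M.X → ℝ}
    {a : ℝ} (hn : 0 < n) (hG : M.Kae G) (hr : M.Sm r) (r0 : ∀ x, 0 < r x)
    (r1 : ∫ x, r x ∂M.mu G = (M.mu G).real univ)
    (ha : ∀ v, M.Sm v → M.Kae (G + M.hs v) → ∫ x, r x * M.tr G (G + M.hs v) x ∂M.mu G ≤ a) :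
    n * ∫ x, r x * Real.exp (Real.log (r x) / n) ∂M.mu G ≤ a := by
  have hGm : M.Met G := hG.toMet
  obtain ⟨-, hfin, -, hV, hint, -⟩ := mMU n M G hGm
  have co : ∀ f : M.X → ℝ, M.Sm f → Continuous f := fun f => ((mTR n M).2.2.2.1 ℝ f).1
  have it : ∀ f : M.X → ℝ, M.Sm f → Integrable f (M.mu G) := fun f h => hint ℝ f (co f h)
  have Gp : ∀ x, (M.ev G x).PosDef := POP.at_ev hGm.pos
  have sF : M.Sm fun x => Real.log (r x) := fun e he z hz => (hr e he z hz).log (r0 _).ne'
  have sg : M.Sm fun x => r x * Real.exp (Real.log (r x) / n) := fun e he z hz =>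
    (hr e he z hz).mul ((sF e he z hz).div_const _).exp
  have g0 : ∀ x, 0 ≤ r x * Real.exp (Real.log (r x) / n) := fun x =>
    (mul_pos (r0 x) (Real.exp_pos _)).le
  obtain ⟨x₀, -, hx₀⟩ := isCompact_univ.exists_isMaxOn univ_nonempty (co _ sg).continuousOn
  obtain ⟨C, hC, hpsh, -⟩ := mPSH n M G 1 hGm
  set K := r x₀ * Real.exp (Real.log (r x₀) / n) with hK
  have n0 : (n : ℝ) ≠ 0 := Nat.cast_ne_zero.2 hn.ne'
  refine le_of_forall_pos_le_add fun η hη => ?_
  have K0 : 0 < K * C := mul_pos (mul_pos (r0 _) (Real.exp_pos _)) hC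
  set t := η / (K * C) with ht
  have t0 : 0 < t := div_pos hη K0
  obtain ⟨v, sv, kA, hd⟩ := hA n M G _ t hn hG sF t0
  have Am : M.Met (G + M.hs v) := kA.toMet
  have Ap : ∀ x, (M.ev (G + M.hs v) x).PosDef := POP.at_ev Am.pos
  obtain ⟨x₁, -, hx₁⟩ := isCompact_univ.exists_isMaxOn univ_nonempty (co _ sv).continuousOn
  have sc : M.Sm fun _ => v x₁ := fun e he z hz => contDiffAt_const
  have sw : M.Sm fun x => v x - v x₁ := fun e he z hz => (sv e he z hz).sub contDiffAt_const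
  have w0 : ∀ x, v x - v x₁ ≤ 0 := fun x => sub_nonpos.2 (hx₁ (mem_univ x))
  have hw := hpsh _ sw (fun e he z hz => by
    have h1 := ((mLAP n M v _ sv sc).1 (v x₁) e he z hz)
    have h2 := (Am.pos e he z hz).posSemidef
    simpa [h1.2.2.1, h1.1] using h2) w0 ⟨x₁, sub_self _⟩
  have sf : M.Sm (M.dq G (G + M.hs v)) := ((mINV n M G hGm).1 _ kA.toTen).2.2.2.1
  have sp : M.Sm (M.tr G (G + M.hs v)) := ((mINV n M G hGm).1 _ kA.toTen).2.1
  have hV1 : ∫ x, M.dq G (G + M.hs v) x ∂M.mu G = (M.mu G).real univ := by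
    rw [mCOH n M G G v hGm hG.toClo sv]
    simp [POP.dq_eq hGm, fun x => div_self (HS76.det_re_pos (Gp x)).ne']
  have m0 : 0 ≤ v x₁ := by
    have h1 : ∫ x, M.dq G (G + M.hs v) x ∂M.mu G ≤ ∫ x, Real.exp (t * v x₁) * r x ∂M.mu G := by
      refine integral_mono (it _ sf) ((it _ hr).const_mul _) fun x => ?_
      show M.dq G (G + M.hs v) x ≤ Real.exp (t * v x₁) * r x
      rw [hd, Real.exp_add, Real.exp_log (r0 x)]
      refine mul_le_mul_of_nonneg_right (Real.exp_le_exp.2 ?_) (r0 x).le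
      exact mul_le_mul_of_nonneg_left (hx₁ (mem_univ x)) t0.le
    rw [hV1, integral_const_mul, r1] at h1
    have h2 : 1 ≤ Real.exp (t * v x₁) := le_of_mul_le_mul_right (by linarith) hV
    exact nonneg_of_mul_nonneg_right (Real.one_le_exp_iff.1 h2) t0 
  have i1 : Integrable (fun x => n * (r x * Real.exp (Real.log (r x) / n))) (M.mu G) :=
    (it _ sg).const_mul _
  have i2 : Integrable (fun x => t * K * (v x - v x₁)) (M.mu G) := (it _ sw).const_mul _
  have h3 := integral_mono (i1.add i2) (it _ fun e he z hz => (hr e he z hz).mul (sp e he z hz))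
    (g := fun x => r x * M.tr G (G + M.hs v) x) fun x => by
      have h4 := tan_tr (Gp x) (Ap x) (Real.log (r x) / n)
      rw [← POP.dq_eq hGm, hd, Real.log_exp, mul_div_cancel₀ _ n0] at h4
      have h5 := mul_le_mul_of_nonneg_left h4 (r0 x).le
      have h6 : r x * Real.exp (Real.log (r x) / n) ≤ K := hx₀ (mem_univ x)
      have h7 := mul_nonneg (mul_nonneg t0.le (sub_nonneg.2 h6)) (neg_nonneg.2 (w0 x))
      have h8 := mul_nonneg (mul_nonneg t0.le (g0 x)) m0
      show n * (r x * Real.exp (Real.log (r x) / n)) + t * K * (v x - v x₁) ≤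
        r x * M.tr G (G + M.hs v) x
      rw [Mf.tr]
      nlinarith
  simp only [Pi.add_apply] at h3
  rw [integral_add i1 i2, integral_const_mul, integral_const_mul] at h3
  have h9 := mul_le_mul_of_nonneg_left hw (mul_pos t0 (mul_pos (r0 x₀) (Real.exp_pos
    (Real.log (r x₀) / n)))).le
  have h10 : t * (K * C) = η := div_mul_cancel₀ _ K0.ne'
  have := ha v sv kA
  rw [← hK] at h9
  nlinarith

end Pool.Agent.Lib.RB27
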